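import Mathlib
import Pool.Agent.Q237.SplitCore

/-!
# Graphs with `e(n)` edges that are not `n`-splittable, for every `n ≥ 5`
-/

namespace Pool.Agent.Results.MP_c89be3_co.HubAndCopies

/-- `e(n) = C(2n+1,2) - C(n,2) - 1`. -/
def e (n : ℕ) : ℕ := (2 * n + 1).choose 2 - n.choose 2 - 1

/-- `G` is `n`-splittable: `E(G) = E(B) ∪ E(D)` with `B` bipartite (2-colourable) and every
vertex of `D` of degree less than `n` in `D`. -/
def Splittable {V : Type*} (n : ℕ) (G : SimpleGraph V) : Prop :=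
  ∃ B D : SimpleGraph V, G.edgeSet = B.edgeSet ∪ D.edgeSet ∧ B.Colorable 2 ∧
    ∀ v, (D.neighborSet v).ncard < n

/-- For every `n ≥ 5` and every `m ≥ 3n+1` some graph with `m` vertices and exactly `e(n)` edges
is not `n`-splittable; in particular the assertion of Q1 is false. -/
theorem result :
    (∀ n m : ℕ, 5 ≤ n → 3 * n + 1 ≤ m →
      ∃ G : SimpleGraph (Fin m), G.edgeSet.ncard = e n ∧ ¬ Splittable n G) ∧
    ¬ (∀ n m : ℕ, 1 ≤ n → 2 * n ≤ m →
      ∀ G : SimpleGraph (Fin m), G.edgeSet.ncard = e n → Splittable n G) := by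
  have h1 : ∀ n m : ℕ, 5 ≤ n → 3 * n + 1 ≤ m →
      ∃ G : SimpleGraph (Fin m), G.edgeSet.ncard = e n ∧ ¬ Splittable n G := fun n m hn hm =>
    Pool.Agent.Q237.SplitCore.counterexamples n m hn hm
  refine ⟨h1, fun h => ?_⟩
  obtain ⟨G, hG, hG'⟩ := h1 5 16 le_rfl (by norm_num)
  exact hG' (h 5 16 (by norm_num) (by norm_num) G hG)

end Pool.Agent.Results.MP_c89be3_co.HubAndCopies
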